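import Pool.Agent.H5.WL.Hax

set_option autoImplicit false

/-!
# Colouring a hypergraph with small closures

`col`: if every set `Y` completes at most `ρ |Y|` further vertices of `A` to an edge, then `A` has a
colouring with `2 (ρ + 1)` colours without a monochromatic edge.
-/

namespace H5WL

open Finset

theorem col {V : Type} [DecidableEq V] (A : Finset V) (H : Finset (Finset V)) (ρ : ℝ) (hρ : 0 ≤ ρ)
    (m : ℕ) (hm : 2 * (ρ + 1) ≤ m) (hne : ∅ ∉ H)
    (h : ∀ Y ⊆ A, ∀ X ⊆ A, Disjoint X Y → (∀ x ∈ X, ∃ f ∈ H, x ∈ f ∧ f ⊆ insert x Y) →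
      (X.card : ℝ) ≤ ρ * Y.card) :
    ∃ c : V → Fin m, ∀ f ∈ H, f ⊆ A → ¬ ∃ j, ∀ i ∈ f, c i = j := by
  classical
  have hm0 : 0 < m := by
    have : (0 : ℝ) < m := by linarith
    exact_mod_cast this
  obtain ⟨U, hU⟩ : ∃ U : Finset (V × Fin m), U = A ×ˢ Finset.univ := ⟨_, rfl⟩
  obtain ⟨HH, hHH⟩ : ∃ HH : Finset (Finset (V × Fin m)),
      HH = (H ×ˢ (Finset.univ : Finset (Fin m))).image (fun p => p.1.image (fun v => (v, p.2))) := ⟨_, rfl⟩
  have hmemHH : ∀ F, F ∈ HH ↔ ∃ f ∈ H, ∃ j : Fin m, f.image (fun v => (v, j)) = F := by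
    intro F
    rw [hHH, Finset.mem_image]
    constructor
    · rintro ⟨⟨f, j⟩, hp, rfl⟩
      rw [Finset.mem_product] at hp
      exact ⟨f, hp.1, j, rfl⟩
    · rintro ⟨f, hf, j, rfl⟩
      exact ⟨(f, j), Finset.mem_product.2 ⟨hf, Finset.mem_univ _⟩, rfl⟩
  by_cases hIT : ∃ T, IsIT U Prod.fst A HH T
  · obtain ⟨T, hTU, hTi, hTA, hTH⟩ := hIT
    have hex : ∀ v ∈ A, ∃ j : Fin m, (v, j) ∈ T := by
      intro v hv
      rw [← hTA, Finset.mem_image] at hv
      obtain ⟨⟨v', j⟩, hvT, rfl⟩ := hv
      exact ⟨j, hvT⟩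
    refine ⟨fun v => if hv : v ∈ A then (hex v hv).choose else ⟨0, hm0⟩, ?_⟩
    rintro f hf hfA ⟨j, hj⟩
    apply hTH (f.image (fun v => (v, j))) ((hmemHH _).2 ⟨f, hf, j, rfl⟩)
    intro z hz
    rw [Finset.mem_image] at hz
    obtain ⟨v, hv, rfl⟩ := hz
    have h1 := hj v hv
    have h2 := (hex v (hfA hv)).choose_spec
    beta_reduce at h1
    rw [dif_pos (hfA hv)] at h1
    rw [h1] at h2
    exact h2
  · exfalso
    obtain ⟨Q, hQF, hQmin⟩ := Finset.exists_min_image
      (A.powerset.filter (fun Q => ¬ ∃ T, IsIT U Prod.fst Q HH T)) Finset.card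
      ⟨A, by rw [Finset.mem_filter]; exact ⟨Finset.mem_powerset_self _, hIT⟩⟩
    rw [Finset.mem_filter, Finset.mem_powerset] at hQF
    obtain ⟨hQA, hQno⟩ := hQF
    have hQne : Q.Nonempty := by
      by_contra hcon
      rw [Finset.not_nonempty_iff_eq_empty] at hcon
      apply hQno
      refine ⟨∅, Finset.empty_subset _, by simp, by simp [hcon], ?_⟩
      intro F hF hFe
      rw [hmemHH] at hF
      obtain ⟨f, hf, j, rfl⟩ := hF
      rw [Finset.subset_empty, Finset.image_eq_empty] at hFe
      rw [hFe] at hf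
      exact hne hf
    obtain ⟨p0, hp0⟩ := hQne
    have hyes : ∃ T, IsIT U Prod.fst (Q.erase p0) HH T := by
      by_contra hcon
      have h1 := hQmin (Q.erase p0) (by
        rw [Finset.mem_filter, Finset.mem_powerset]
        exact ⟨(Finset.erase_subset _ _).trans hQA, hcon⟩)
      have h2 := Finset.card_erase_lt_of_mem hp0
      omega
    obtain ⟨S, hSQ, hp0S, Y, hYU, hYc, hYz⟩ := hax Q.card U Prod.fst Q HH p0 rfl hp0 hQno hyes
    obtain ⟨YY, hYY⟩ : ∃ YY : Fin m → Finset V, YY = fun j => A.filter (fun v => (v, j) ∈ Y) := ⟨_, rfl⟩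
    have hmemY : ∀ j v, v ∈ YY j ↔ (v, j) ∈ Y := by
      intro j v
      rw [hYY]
      constructor
      · intro hv
        exact (Finset.mem_filter.1 hv).2
      · intro hv
        refine Finset.mem_filter.2 ⟨?_, hv⟩
        have := hYU hv
        rw [hU, Finset.mem_product] at this
        exact this.1
    have hYYA : ∀ j, YY j ⊆ A := by
      intro j
      rw [hYY]
      exact Finset.filter_subset _ _
    have hSA : S ⊆ A := hSQ.trans hQA
    have hone : ∀ j, (S.card : ℝ) ≤ (ρ + 1) * (YY j).card := by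
      intro j
      have h1 := h (YY j) (hYYA j) (S \ YY j) (Finset.sdiff_subset.trans hSA)
        Finset.sdiff_disjoint (by
          intro x hx
          rw [Finset.mem_sdiff] at hx
          have hxU : (x, j) ∈ U := by
            rw [hU, Finset.mem_product]
            exact ⟨hSA hx.1, Finset.mem_univ _⟩
          rcases hYz (x, j) hxU hx.1 with h2 | ⟨F, hF, hxF, hFY⟩
          · exact absurd ((hmemY j x).2 h2) hx.2
          · rw [hmemHH] at hF
            obtain ⟨f, hf, j', rfl⟩ := hF
            rw [Finset.mem_image] at hxF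
            obtain ⟨x', hx', hxx⟩ := hxF
            have hj : j' = j := (Prod.ext_iff.1 hxx).2
            have hx2 : x' = x := (Prod.ext_iff.1 hxx).1
            subst hj
            subst hx2
            refine ⟨f, hf, hx', ?_⟩
            intro v hv
            have h3 := hFY (Finset.mem_image_of_mem _ hv)
            rw [Finset.mem_insert] at h3 ⊢
            rcases h3 with h3 | h3
            · left
              exact (Prod.ext_iff.1 h3).1
            · right
              exact (hmemY _ v).2 h3)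
      have h2 : S.card ≤ (S \ YY j).card + (YY j).card := by
        have h3 := Finset.card_le_card (s := S) (t := S \ YY j ∪ YY j) (by
          intro v hv
          rw [Finset.mem_union, Finset.mem_sdiff]
          by_cases h4 : v ∈ YY j
          · exact Or.inr h4
          · exact Or.inl ⟨hv, h4⟩)
        exact h3.trans (Finset.card_union_le _ _)
      have h2' : (S.card : ℝ) ≤ (S \ YY j).card + (YY j).card := by exact_mod_cast h2
      calc (S.card : ℝ) ≤ (S \ YY j).card + (YY j).card := h2'
        _ ≤ ρ * (YY j).card + (YY j).card := by linarith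
        _ = (ρ + 1) * (YY j).card := by ring
    have hsum : ∑ j : Fin m, (YY j).card = Y.card := by
      have h1 : Y.card = ∑ j ∈ (Finset.univ : Finset (Fin m)), (Y.filter (fun z => z.2 = j)).card :=
        Finset.card_eq_sum_card_fiberwise (fun z _ => Finset.mem_univ _)
      rw [h1]
      apply Finset.sum_congr rfl
      intro j _
      have h2 : (YY j).image (fun v => (v, j)) = Y.filter (fun z => z.2 = j) := by
        ext z
        rw [Finset.mem_image, Finset.mem_filter]
        constructor
        · rintro ⟨v, hv, rfl⟩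
          exact ⟨(hmemY j v).1 hv, rfl⟩
        · rintro ⟨hz, rfl⟩
          exact ⟨z.1, (hmemY _ _).2 hz, rfl⟩
      rw [← h2, Finset.card_image_of_injective]
      intro v w hvw
      exact (Prod.ext_iff.1 hvw).1
    have h5 : ∑ _j : Fin m, (S.card : ℝ) ≤ ∑ j : Fin m, (ρ + 1) * ((YY j).card : ℝ) :=
      Finset.sum_le_sum fun j _ => hone j
    have hsum' : ∑ j : Fin m, ((YY j).card : ℝ) = Y.card := by exact_mod_cast hsum
    rw [← Finset.mul_sum, hsum', Finset.sum_const, Finset.card_univ, Fintype.card_fin, nsmul_eq_mul] at h5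
    have h6 : (Y.card : ℝ) + 2 ≤ 2 * S.card := by exact_mod_cast hYc
    have h7 : 2 * (ρ + 1) * S.card ≤ m * S.card := mul_le_mul_of_nonneg_right hm (by positivity)
    nlinarith

end H5WL
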