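import Pool.Agent.H5.WI.Count
import Pool.Agent.H5.WI.Comb

set_option autoImplicit false

/-!
# The closure of a set under short relations

If `Y` and `X` are disjoint sets of indices of a weakly independent family of positive integers and every
`x ∈ X` has a relation with `Y`, of length at most `k` and with coefficients at most `K`, then
`|X| ≤ (2.257 log (k K D) + 1.437) |Y|`, where every number up to `K` divides `D`.
-/

namespace H5WL

open Finset

theorem sum_log_le (P : Finset ℕ) (w : ℕ → ℕ) (n r : ℕ) (hr : 1 ≤ r) (h1 : 2 ^ n ≤ ∏ p ∈ P, (1 + w p))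
    (h2 : ∑ p ∈ P, w p ≤ r * n) :
    (n : ℝ) ≤ (2.257 * Real.log r + 1.437) * P.card := by
  have hr' : (1 : ℝ) ≤ r := by exact_mod_cast hr
  have hr0 : (0 : ℝ) < r := by linarith
  have h3 : (n : ℝ) * Real.log 2 ≤ ∑ p ∈ P, Real.log (1 + (w p : ℝ)) := by
    have h3 : ((2 : ℝ) ^ n) ≤ ∏ p ∈ P, (1 + (w p : ℝ)) := by exact_mod_cast h1
    have h4 := Real.log_le_log (by positivity) h3
    rw [Real.log_pow, Real.log_prod] at h4
    · exact h4
    · intro p _
      positivity
  have h5 : ∀ p, Real.log (1 + (w p : ℝ)) ≤ (w p : ℝ) / (4 * r) + (Real.log r + 0.6363) := by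
    intro p
    have h6 : (0 : ℝ) < 4 * r := by positivity
    have h7 : Real.log ((1 + (w p : ℝ)) / (4 * r)) ≤ (1 + (w p : ℝ)) / (4 * r) - 1 :=
      Real.log_le_sub_one_of_pos (by positivity)
    have h8 : Real.log (4 * (r : ℝ)) = 2 * Real.log 2 + Real.log r := by
      rw [Real.log_mul (by norm_num) (by positivity)]
      have : (4 : ℝ) = 2 ^ (2 : ℕ) := by norm_num
      rw [this, Real.log_pow]
      push_cast
      ring
    rw [Real.log_div (by positivity) h6.ne', h8] at h7
    have h9 : (1 + (w p : ℝ)) / (4 * r) = 1 / (4 * r) + (w p : ℝ) / (4 * r) := add_div _ _ _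
    have h10 : (1 : ℝ) / (4 * r) ≤ 1 / 4 := by
      apply div_le_div_of_nonneg_left (by norm_num) (by norm_num)
      linarith
    have h11 := Real.log_two_lt_d9
    linarith
  have h6 : ∑ p ∈ P, Real.log (1 + (w p : ℝ)) ≤ (n : ℝ) / 4 + (Real.log r + 0.6363) * P.card := by
    refine (Finset.sum_le_sum fun p _ => h5 p).trans ?_
    rw [Finset.sum_add_distrib, Finset.sum_const, nsmul_eq_mul, ← Finset.sum_div]
    have h7 : (∑ p ∈ P, (w p : ℝ)) ≤ r * n := by exact_mod_cast h2
    have h8 : (∑ p ∈ P, (w p : ℝ)) / (4 * r) ≤ (n : ℝ) / 4 := by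
      rw [div_le_div_iff₀ (by positivity) (by norm_num)]
      linarith
    linarith [mul_comm (P.card : ℝ) (Real.log r + 0.6363)]
  have h7 := Real.log_two_gt_d9
  have hn : (0 : ℝ) ≤ n := by positivity
  have h8 : (n : ℝ) * 0.4431 ≤ (Real.log r + 0.6363) * P.card := by nlinarith
  have h9 : 0 ≤ Real.log r := Real.log_nonneg hr'
  have h10 : (0 : ℝ) ≤ P.card := by positivity
  have h11 : 0 ≤ Real.log r * P.card := by positivity
  have h12 : (Real.log r + 0.6363) * P.card = Real.log r * P.card + 0.6363 * P.card := by ring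
  have h13 : (2.257 * Real.log r + 1.437) * P.card = 2.257 * (Real.log r * P.card) + 1.437 * P.card := by ring
  rw [h12] at h8
  rw [h13]
  linarith

theorem det {K k D : ℕ} (hK : 1 ≤ K) (hk : 1 ≤ k) (hD : 1 ≤ D)
    (hDK : ∀ q : ℤ, q ≠ 0 → |q| ≤ K → q ∣ (D : ℤ)) {a : ℕ → ℕ} {A : Set ℕ}
    (hw : Pool.Agent.H5.WI.Ind 1 a A) (X Y : Finset ℕ) (hX : ∀ x ∈ X, x ∈ A) (hXY : Disjoint X Y)
    (h : ∀ x ∈ X, ∃ s : Finset ℕ, s ⊆ insert x Y ∧ x ∈ s ∧ s.card ≤ k ∧ ∃ ε : ℕ → ℤ,
      (∀ i ∈ s, |ε i| ≤ K) ∧ ε x ≠ 0 ∧ ∑ i ∈ s, ε i * (a i : ℤ) = 0) :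
    (X.card : ℝ) ≤ (2.257 * Real.log ((k * K * D : ℕ) : ℝ) + 1.437) * Y.card := by
  classical
  choose! s hsY hxs hsk ε hεK hεx hsum using h
  obtain ⟨c, hc⟩ : ∃ c : ℕ → ℕ → ℤ, c = fun x i => if i ∈ s x then (D : ℤ) / ε x x * ε x i else 0 := ⟨_, rfl⟩
  have hdiv : ∀ x ∈ X, (D : ℤ) / ε x x * ε x x = D := fun x hx =>
    Int.ediv_mul_cancel (hDK _ (hεx x hx) (hεK x hx x (hxs x hx)))
  have habs : ∀ x ∈ X, |(D : ℤ) / ε x x| ≤ D := by
    intro x hx
    have h1 : |(D : ℤ) / ε x x| * |ε x x| = D := by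
      rw [← abs_mul, hdiv x hx]
      exact abs_of_nonneg (by positivity)
    have h2 : 1 ≤ |ε x x| := Int.one_le_abs (hεx x hx)
    have h3 : 0 ≤ |(D : ℤ) / ε x x| := abs_nonneg _
    nlinarith
  -- the relations
  have hrel : ∀ x ∈ X, ∑ p ∈ Y, c x p * (a p : ℤ) = - ((D : ℤ) * a x) := by
    intro x hx
    have hxY : x ∉ Y := Finset.disjoint_left.1 hXY hx
    have h1 : ∑ i ∈ insert x Y, c x i * (a i : ℤ) = ∑ i ∈ s x, (D : ℤ) / ε x x * (ε x i * (a i : ℤ)) := by
      rw [← Finset.sum_filter_add_sum_filter_not (insert x Y) (fun i => i ∈ s x)]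
      have h2 : (insert x Y).filter (fun i => i ∈ s x) = s x := by
        ext i
        rw [Finset.mem_filter]
        exact ⟨fun h => h.2, fun h => ⟨hsY x hx h, h⟩⟩
      rw [h2]
      have h3 : ∑ i ∈ (insert x Y).filter (fun i => i ∉ s x), c x i * (a i : ℤ) = 0 := by
        apply Finset.sum_eq_zero
        intro i hi
        rw [Finset.mem_filter] at hi
        rw [hc]
        dsimp only
        rw [if_neg hi.2, zero_mul]
      rw [h3, add_zero]
      apply Finset.sum_congr rfl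
      intro i hi
      rw [hc]
      dsimp only
      rw [if_pos hi]
      ring
    rw [← Finset.mul_sum, hsum x hx, mul_zero, Finset.sum_insert hxY] at h1
    have h4 : c x x = D := by
      rw [hc]
      dsimp only
      rw [if_pos (hxs x hx)]
      exact hdiv x hx
    rw [h4] at h1
    linarith
  -- injectivity
  have hinj : ∀ A' ⊆ X, ∀ B ⊆ X, (∀ p ∈ Y, ∑ i ∈ A', c i p = ∑ i ∈ B, c i p) → A' = B := by
    intro A' hA' B hB hAB
    have key : ∀ C ⊆ X, ∑ p ∈ Y, (∑ i ∈ C, c i p) * (a p : ℤ) = - ((D : ℤ) * ∑ i ∈ C, (a i : ℤ)) := by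
      intro C hC
      have h1 : ∑ p ∈ Y, (∑ i ∈ C, c i p) * (a p : ℤ) = ∑ i ∈ C, ∑ p ∈ Y, c i p * (a p : ℤ) := by
        rw [Finset.sum_comm]
        apply Finset.sum_congr rfl
        intro p _
        rw [Finset.sum_mul]
      rw [h1, Finset.sum_congr rfl fun i hi => hrel i (hC hi), Finset.sum_neg_distrib, Finset.mul_sum]
    have h1 := key A' hA'
    have h2 := key B hB
    have h3 : ∑ p ∈ Y, (∑ i ∈ A', c i p) * (a p : ℤ) = ∑ p ∈ Y, (∑ i ∈ B, c i p) * (a p : ℤ) :=
      Finset.sum_congr rfl fun p hp => by rw [hAB p hp]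
    rw [h1, h2] at h3
    have hD0 : (D : ℤ) ≠ 0 := by
      have : (1 : ℤ) ≤ D := by exact_mod_cast hD
      omega
    have h4 : ∑ i ∈ A', (a i : ℤ) = ∑ i ∈ B, (a i : ℤ) := by
      have h5 : (D : ℤ) * ∑ i ∈ A', (a i : ℤ) = (D : ℤ) * ∑ i ∈ B, (a i : ℤ) := by linarith
      exact mul_left_cancel₀ hD0 h5
    -- weak independence
    let η : ℕ → ℤ := fun i => (if i ∈ A' then 1 else 0) - (if i ∈ B then 1 else 0)
    have h6 : ∑ i ∈ X, η i * (a i : ℤ) = 0 := by
      have h7 : ∀ C ⊆ X, ∑ i ∈ X, (if i ∈ C then (1 : ℤ) else 0) * (a i : ℤ) = ∑ i ∈ C, (a i : ℤ) := by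
        intro C hC
        rw [← Finset.sum_filter_add_sum_filter_not X (fun i => i ∈ C)]
        have h8 : X.filter (fun i => i ∈ C) = C := by
          ext i
          rw [Finset.mem_filter]
          exact ⟨fun h => h.2, fun h => ⟨hC h, h⟩⟩
        rw [h8]
        have h9 : ∑ i ∈ X.filter (fun i => i ∉ C), (if i ∈ C then (1 : ℤ) else 0) * (a i : ℤ) = 0 := by
          apply Finset.sum_eq_zero
          intro i hi
          rw [Finset.mem_filter] at hi
          rw [if_neg hi.2, zero_mul]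
        rw [h9, add_zero]
        apply Finset.sum_congr rfl
        intro i hi
        rw [if_pos hi, one_mul]
      have h8 : ∑ i ∈ X, η i * (a i : ℤ) = ∑ i ∈ X, (if i ∈ A' then (1 : ℤ) else 0) * (a i : ℤ) -
          ∑ i ∈ X, (if i ∈ B then (1 : ℤ) else 0) * (a i : ℤ) := by
        rw [← Finset.sum_sub_distrib]
        apply Finset.sum_congr rfl
        intro i _
        exact sub_mul _ _ _
      rw [h8, h7 A' hA', h7 B hB, h4, sub_self]
    have h7 := hw X hX η (fun i _ => by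
      change |(if i ∈ A' then (1 : ℤ) else 0) - (if i ∈ B then (1 : ℤ) else 0)| ≤ ((1 : ℕ) : ℤ)
      split_ifs <;> simp) h6
    have h8 : ∀ i ∈ X, (i ∈ A' ↔ i ∈ B) := by
      intro i hi
      have h9 : (if i ∈ A' then (1 : ℤ) else 0) - (if i ∈ B then (1 : ℤ) else 0) = 0 := h7 i hi
      by_cases h10 : i ∈ A' <;> by_cases h11 : i ∈ B
      · exact ⟨fun _ => h11, fun _ => h10⟩
      · rw [if_pos h10, if_neg h11] at h9
        omega
      · rw [if_neg h10, if_pos h11] at h9
        omega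
      · exact ⟨fun h => absurd h h10, fun h => absurd h h11⟩
    ext i
    constructor
    · intro hi
      exact (h8 i (hA' hi)).1 hi
    · intro hi
      exact (h8 i (hB hi)).2 hi
  have h1 := Pool.Agent.H5.WI.two_pow_le X Y c hinj
  have hr : 1 ≤ k * K * D := by
    have := Nat.mul_le_mul (Nat.mul_le_mul hk hK) hD
    simpa using this
  apply sum_log_le Y (fun p => ∑ i ∈ X, (c i p).natAbs) X.card (k * K * D) hr h1
  rw [Finset.sum_comm]
  have h2 : ∀ x ∈ X, ∑ p ∈ Y, (c x p).natAbs ≤ k * K * D := by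
    intro x hx
    have h3 : ∀ p, (c x p).natAbs ≤ if p ∈ s x then K * D else 0 := by
      intro p
      rw [hc]
      dsimp only
      by_cases hp : p ∈ s x
      · rw [if_pos hp, if_pos hp, Int.natAbs_mul]
        have h4 : ((D : ℤ) / ε x x).natAbs ≤ D := by
          have := habs x hx
          rw [Int.abs_eq_natAbs] at this
          exact_mod_cast this
        have h5 : (ε x p).natAbs ≤ K := by
          have := hεK x hx p hp
          rw [Int.abs_eq_natAbs] at this
          exact_mod_cast this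
        calc ((D : ℤ) / ε x x).natAbs * (ε x p).natAbs ≤ D * K := Nat.mul_le_mul h4 h5
          _ = K * D := by ring
      · rw [if_neg hp, if_neg hp]
        exact le_rfl
    calc ∑ p ∈ Y, (c x p).natAbs ≤ ∑ p ∈ Y, (if p ∈ s x then K * D else 0) :=
          Finset.sum_le_sum fun p _ => h3 p
      _ = (Y.filter (fun p => p ∈ s x)).card * (K * D) := by
          rw [← Finset.sum_filter, Finset.sum_const, smul_eq_mul]
      _ ≤ k * (K * D) := by
          apply Nat.mul_le_mul_right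
          refine (Finset.card_le_card ?_).trans (hsk x hx)
          intro p hp
          exact (Finset.mem_filter.1 hp).2
      _ = k * K * D := by ring
  calc ∑ x ∈ X, ∑ p ∈ Y, (c x p).natAbs ≤ ∑ x ∈ X, k * K * D := Finset.sum_le_sum h2
    _ = k * K * D * X.card := by rw [Finset.sum_const, smul_eq_mul, mul_comm]

end H5WL
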