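import Pool.Agent.H5.WL.Clr
import Pool.Agent.H5.WL.Det
import Pool.Agent.H5.WI.Col
import Pool.Agent.H5.WI.Equiv

set_option autoImplicit false

/-!
# Weakly independent sequences and short relations

Every weakly independent sequence splits into `O(K + log k)` classes without nontrivial relations of at
most `k` terms with coefficients in `[-K, K]`; a weakly independent set of `n` numbers is a union of
`O(log n)` strongly independent sets; at least `π(K)` classes can be necessary.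
-/

namespace H5WL

open Finset Pool.Agent.H5.WI

/-- no nontrivial relation of at most `k` terms with coefficients in `[-K, K]` -/
def NoShort (K k : ℕ) (a : ℕ → ℕ) (S : Set ℕ) : Prop :=
  ∀ s : Finset ℕ, (∀ i ∈ s, i ∈ S) → s.card ≤ k → ∀ ε : ℕ → ℤ, (∀ i ∈ s, |ε i| ≤ K) →
    ∑ i ∈ s, ε i * (a i : ℤ) = 0 → ∀ i ∈ s, ε i = 0

/-- the support of a nontrivial relation of at most `k` terms with coefficients in `[-K, K]` -/
def Edge (K k : ℕ) (a : ℕ → ℕ) (f : Finset ℕ) : Prop :=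
  f.Nonempty ∧ f.card ≤ k ∧ ∃ ε : ℕ → ℤ, (∀ i ∈ f, |ε i| ≤ K ∧ ε i ≠ 0) ∧ ∑ i ∈ f, ε i * (a i : ℤ) = 0

theorem noShort_of {K k : ℕ} {a : ℕ → ℕ} {S : Set ℕ} (h : ∀ f, Edge K k a f → ¬ ∀ i ∈ f, i ∈ S) :
    NoShort K k a S := by
  intro s hs hsk ε hε h0 i hi
  by_contra hcon
  apply h (s.filter (fun i => ε i ≠ 0))
  · refine ⟨⟨i, Finset.mem_filter.2 ⟨hi, hcon⟩⟩, (Finset.card_le_card (Finset.filter_subset _ _)).trans hsk,
      ε, ?_, ?_⟩
    · intro j hj
      rw [Finset.mem_filter] at hj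
      exact ⟨hε j hj.1, hj.2⟩
    · have h2 := Finset.sum_filter_add_sum_filter_not s (fun i => ε i ≠ 0) (fun i => ε i * (a i : ℤ))
      have h1 : ∑ x ∈ s.filter (fun x => ¬ ε x ≠ 0), ε x * (a x : ℤ) = 0 := by
        apply Finset.sum_eq_zero
        intro x hx
        rw [Finset.mem_filter, not_not] at hx
        rw [hx.2, zero_mul]
      rw [h1, add_zero, h0] at h2
      exact h2
  · intro j hj
    exact hs j (Finset.mem_filter.1 hj).1

/-- the bound for the number of classes -/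
theorem fin_col {K k D m : ℕ} (hK : 1 ≤ K) (hk : 1 ≤ k) (hD : 1 ≤ D)
    (hDK : ∀ q : ℤ, q ≠ 0 → |q| ≤ K → q ∣ (D : ℤ))
    (hm : 4.514 * Real.log ((k * K * D : ℕ) : ℝ) + 4.874 ≤ m) {a : ℕ → ℕ} (A : Finset ℕ)
    (hw : Ind 1 a (A : Set ℕ)) :
    ∃ c : ℕ → Fin m, ∀ f, Edge K k a f → f ⊆ A → ¬ ∃ j, ∀ i ∈ f, c i = j := by
  classical
  have hr : 1 ≤ k * K * D := by
    have := Nat.mul_le_mul (Nat.mul_le_mul hk hK) hD
    simpa using this
  have hlog : 0 ≤ Real.log ((k * K * D : ℕ) : ℝ) := Real.log_nonneg (by exact_mod_cast hr)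
  obtain ⟨c, hc⟩ := col A (A.powerset.filter (fun f => Edge K k a f))
    (2.257 * Real.log ((k * K * D : ℕ) : ℝ) + 1.437) (by positivity) m (by linarith)
    (by
      intro h
      rw [Finset.mem_filter] at h
      exact Finset.not_nonempty_empty h.2.1)
    (by
      intro Y hY X hX hXY h
      apply det hK hk hD hDK hw X Y (fun x hx => hX hx) hXY
      intro x hx
      obtain ⟨f, hf, hxf, hfY⟩ := h x hx
      rw [Finset.mem_filter] at hf
      obtain ⟨_, _, hfk, ε, hε, h0⟩ := hf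
      exact ⟨f, hfY, hxf, hfk, ε, fun i hi => (hε i hi).1, (hε x hxf).2, h0⟩)
  exact ⟨c, fun f hf hfA => hc f (Finset.mem_filter.2 ⟨Finset.mem_powerset.2 hfA, hf⟩) hfA⟩

theorem seq_col {K k D m : ℕ} (hK : 1 ≤ K) (hk : 1 ≤ k) (hD : 1 ≤ D)
    (hDK : ∀ q : ℤ, q ≠ 0 → |q| ≤ K → q ∣ (D : ℤ))
    (hm : 4.514 * Real.log ((k * K * D : ℕ) : ℝ) + 4.874 ≤ m) {a : ℕ → ℕ} (hw : Ind 1 a Set.univ) :
    ∃ f : ℕ → Fin m, ∀ j, NoShort K k a {i | f i = j} := by
  obtain ⟨c, hc⟩ := exists_col m {f | Edge K k a f} (fun n => by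
    obtain ⟨c, hc⟩ := fin_col hK hk hD hDK hm (Finset.range n) (ind_mono (Set.subset_univ _) hw)
    exact ⟨c, fun f hf hfn => hc f hf hfn⟩)
  exact ⟨c, fun j => noShort_of fun f hf h => hc f hf ⟨j, h⟩⟩

theorem dvd_two (q : ℤ) (hq : q ≠ 0) (hq2 : |q| ≤ ((2 : ℕ) : ℤ)) : q ∣ ((2 : ℕ) : ℤ) := by
  push_cast at hq2 ⊢
  rw [abs_le] at hq2
  have h1 : q = -2 ∨ q = -1 ∨ q = 1 ∨ q = 2 := by omega
  rcases h1 with h | h | h | h <;> rw [h]
  · exact ⟨-1, by norm_num⟩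
  · exact ⟨-2, by norm_num⟩
  · exact ⟨2, by norm_num⟩

theorem log_two_mul {k : ℕ} (hk : 1 ≤ k) :
    4.514 * Real.log ((k * 2 * 2 : ℕ) : ℝ) + 4.874 ≤ 5 * Real.log k + 12 := by
  have hk' : (1 : ℝ) ≤ k := by exact_mod_cast hk
  have h1 : Real.log ((k * 2 * 2 : ℕ) : ℝ) = Real.log k + 2 * Real.log 2 := by
    push_cast
    rw [Real.log_mul (by positivity) (by norm_num), Real.log_mul (by positivity) (by norm_num)]
    ring
  have h2 := Real.log_two_lt_d9
  have h3 : 0 ≤ Real.log k := Real.log_nonneg hk'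
  rw [h1]
  linarith

theorem dvd_lcmUpto (K : ℕ) (q : ℤ) (hq : q ≠ 0) (hqK : |q| ≤ K) : q ∣ (Nat.lcmUpto K : ℤ) := by
  have h1 : q.natAbs ∣ Nat.lcmUpto K := by
    have h2 : q.natAbs ∈ Finset.Icc 1 K := by
      rw [Finset.mem_Icc]
      rw [Int.abs_eq_natAbs] at hqK
      have h3 := Int.natAbs_pos.2 hq
      omega
    exact Finset.dvd_lcm (f := id) h2
  exact Int.natAbs_dvd.1 (by exact_mod_cast h1)

theorem log_gen {K k : ℕ} (hK : 1 ≤ K) (hk : 1 ≤ k) :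
    4.514 * Real.log ((k * K * Nat.lcmUpto K : ℕ) : ℝ) + 4.874 ≤ 5 * Real.log k + 30 * K := by
  have hk' : (1 : ℝ) ≤ k := by exact_mod_cast hk
  have hK' : (1 : ℝ) ≤ K := by exact_mod_cast hK
  have hL : (0 : ℝ) < Nat.lcmUpto K := by exact_mod_cast Nat.lcmUpto_pos K
  have h1 : Real.log ((k * K * Nat.lcmUpto K : ℕ) : ℝ) =
      Real.log k + Real.log K + Real.log (Nat.lcmUpto K) := by
    push_cast
    rw [Real.log_mul (by positivity) hL.ne', Real.log_mul (by positivity) (by positivity)]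
  have h2 : Real.log (Nat.lcmUpto K) ≤ (Real.log 4 + 4) * K := by
    rw [← Chebyshev.psi_eq_log_lcmUpto]
    exact Chebyshev.psi_le_const_mul_self (by positivity)
  have h3 : Real.log 4 = 2 * Real.log 2 := by
    have : (4 : ℝ) = 2 ^ (2 : ℕ) := by norm_num
    rw [this, Real.log_pow]
    push_cast
    ring
  have h4 := Real.log_two_lt_d9
  have h5 : Real.log K ≤ K - 1 := Real.log_le_sub_one_of_pos (by linarith)
  have h6 : 0 ≤ Real.log k := Real.log_nonneg hk'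
  have h7 : (Real.log 4 + 4) * K ≤ 5.3863 * K := by
    apply mul_le_mul_of_nonneg_right _ (by linarith)
    rw [h3]
    linarith
  rw [h1]
  linarith

/-- general coefficients -/
theorem main_gen {K k m : ℕ} (hK : 1 ≤ K) (hk : 1 ≤ k) (hm : 5 * Real.log k + 30 * K ≤ m) {a : ℕ → ℕ}
    (hw : Ind 1 a Set.univ) : ∃ f : ℕ → Fin m, ∀ j, NoShort K k a {i | f i = j} :=
  seq_col hK hk (Nat.lcmUpto_pos K) (dvd_lcmUpto K) ((log_gen hK hk).trans hm) hw

/-- coefficients at most two -/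
theorem main_two {k m : ℕ} (hk : 1 ≤ k) (hm : 5 * Real.log k + 12 ≤ m) {a : ℕ → ℕ}
    (hw : Ind 1 a Set.univ) : ∃ f : ℕ → Fin m, ∀ j, NoShort 2 k a {i | f i = j} :=
  seq_col (by norm_num) hk (by norm_num) dvd_two ((log_two_mul hk).trans hm) hw

/-- finite sets -/
theorem main_fin {n m : ℕ} (hn : 1 ≤ n) (hm : 5 * Real.log n + 12 ≤ m) (F : Finset ℕ) (hF : F.card ≤ n)
    (hw : Ind 1 (fun x => x) (F : Set ℕ)) :
    ∃ f : ℕ → Fin m, ∀ j, Ind 2 (fun x => x) {x | x ∈ F ∧ f x = j} := by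
  obtain ⟨c, hc⟩ := fin_col (K := 2) (D := 2) (by norm_num) hn (by norm_num) dvd_two
    ((log_two_mul hn).trans hm) F hw
  refine ⟨c, fun j => ?_⟩
  have h1 : NoShort 2 n (fun x => x) {x | x ∈ F ∧ c x = j} :=
    noShort_of fun f hf h => hc f hf (fun i hi => (h i hi).1) ⟨j, fun i hi => (h i hi).2⟩
  intro s hs ε hε h0
  exact h1 s hs ((Finset.card_le_card fun i hi => (hs i hi).1).trans hF) ε hε h0

end H5WL
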