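import Mathlib

set_option autoImplicit false

/-!
# Independent transversals in hypergraphs

`IsIT U π Q H T`: `T` is a subset of `U` with exactly one vertex in each of the parts `Q`, and no edge
inside. `hax`: if there is no independent transversal of `Q` but one of `Q - p0`, then there is a set of
parts `S`, `p0 ∈ S`, all of whose vertices lie in a set `Y` of at most `2 (|S| - 1)` vertices or complete
an edge with it. `col`: colouring of a hypergraph with small closures.
-/

namespace H5WL

open Finset

section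

variable {V P : Type} [DecidableEq V] [DecidableEq P]

/-- an independent transversal of the parts `Q` -/
def IsIT (U : Finset V) (π : V → P) (Q : Finset P) (H : Finset (Finset V)) (T : Finset V) : Prop :=
  T ⊆ U ∧ Set.InjOn π (T : Set V) ∧ T.image π = Q ∧ ∀ f ∈ H, ¬ f ⊆ T

theorem hax : ∀ (q : ℕ) (U : Finset V) (π : V → P) (Q : Finset P) (H : Finset (Finset V)) (p0 : P),
    Q.card = q → p0 ∈ Q → (¬ ∃ T, IsIT U π Q H T) → (∃ T, IsIT U π (Q.erase p0) H T) →
    ∃ S ⊆ Q, p0 ∈ S ∧ ∃ Y ⊆ U, Y.card + 2 ≤ 2 * S.card ∧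
      ∀ z ∈ U, π z ∈ S → z ∈ Y ∨ ∃ f ∈ H, z ∈ f ∧ f ⊆ insert z Y := by
  classical
  intro q
  induction q using Nat.strong_induction_on with
  | _ q ih =>
  intro U π Q H p0 hq hp0 hno hyes
  obtain ⟨T1, hT1U, hT1i, hT1Q, hT1H⟩ := hyes
  have hemp : (∅ : Finset V) ∉ H := fun h => hT1H _ h (Finset.empty_subset _)
  obtain ⟨U0, hU0⟩ : ∃ U0, U0 = U.filter (fun z => ({z} : Finset V) ∉ H) := ⟨_, rfl⟩
  obtain ⟨H1, hH1⟩ : ∃ H1, H1 = H.filter (fun f => 2 ≤ f.card) := ⟨_, rfl⟩
  have hU0U : U0 ⊆ U := by
    rw [hU0]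
    exact Finset.filter_subset _ _
  have hno1 : ¬ ∃ T, IsIT U0 π Q H1 T := by
    rintro ⟨T, h1, h2, h3, h4⟩
    refine hno ⟨T, h1.trans hU0U, h2, h3, fun f hf hfT => ?_⟩
    rcases Nat.lt_or_ge f.card 2 with hc | hc
    · rcases Nat.eq_zero_or_pos f.card with h0 | h0
      · rw [Finset.card_eq_zero] at h0
        rw [h0] at hf
        exact hemp hf
      · have h5 : f.card = 1 := by omega
        obtain ⟨z, rfl⟩ := Finset.card_eq_one.1 h5
        have h6 := h1 (hfT (Finset.mem_singleton_self z))
        rw [hU0, Finset.mem_filter] at h6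
        exact h6.2 hf
    · exact h4 f (by rw [hH1, Finset.mem_filter]; exact ⟨hf, hc⟩) hfT
  by_cases hB : ∃ x ∈ U0, π x = p0
  swap
  · push Not at hB
    refine ⟨{p0}, by simpa using hp0, Finset.mem_singleton_self _, ∅, Finset.empty_subset _, by simp, ?_⟩
    intro z hz hzp
    rw [Finset.mem_singleton] at hzp
    right
    have h1 : z ∉ U0 := fun h => hB z h hzp
    rw [hU0, Finset.mem_filter, not_and, not_not] at h1
    exact ⟨{z}, h1 hz, Finset.mem_singleton_self _, by simp⟩
  obtain ⟨x, hxU0, hxp⟩ := hB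
  -- a minimal set of edges
  obtain ⟨H0, hH0F, hH0min⟩ := Finset.exists_min_image
    (H1.powerset.filter (fun G => ¬ ∃ T, IsIT U0 π Q G T)) Finset.card
    ⟨H1, by rw [Finset.mem_filter]; exact ⟨Finset.mem_powerset_self _, hno1⟩⟩
  rw [Finset.mem_filter, Finset.mem_powerset] at hH0F
  obtain ⟨hH01, hno0⟩ := hH0F
  have hT1U0 : T1 ⊆ U0 := by
    intro z hz
    rw [hU0, Finset.mem_filter]
    exact ⟨hT1U hz, fun h => hT1H _ h (by simpa using hz)⟩
  have hsub : ∀ f ∈ H0, f ∈ H ∧ 2 ≤ f.card := by
    intro f hf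
    have := hH01 hf
    rw [hH1, Finset.mem_filter] at this
    exact this
  -- an edge through x
  obtain ⟨e, heH0, hxe, heT1⟩ : ∃ e ∈ H0, x ∈ e ∧ e ⊆ insert x T1 := by
    by_contra hcon
    push Not at hcon
    apply hno0
    refine ⟨insert x T1, ?_, ?_, ?_, ?_⟩
    · rw [Finset.insert_subset_iff]
      exact ⟨hxU0, hT1U0⟩
    · rw [Finset.coe_insert]
      have hxT : x ∉ (T1 : Set V) := by
        intro h
        have h1 : π x ∈ T1.image π := Finset.mem_image_of_mem π h
        rw [hT1Q, hxp] at h1
        exact Finset.notMem_erase p0 Q h1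
      rw [Set.injOn_insert hxT]
      refine ⟨hT1i, ?_⟩
      rintro ⟨y, hy, hyx⟩
      have h1 : π y ∈ T1.image π := Finset.mem_image_of_mem π hy
      rw [hT1Q, hyx, hxp] at h1
      exact Finset.notMem_erase p0 Q h1
    · rw [Finset.image_insert, hT1Q, hxp, Finset.insert_erase hp0]
    · intro f hf hfT
      by_cases hxf : x ∈ f
      · exact hcon f hf hxf hfT
      · apply hT1H f (hsub f hf).1
        intro y hy
        have := hfT hy
        rw [Finset.mem_insert] at this
        rcases this with h | h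
        · rw [h] at hy
          exact absurd hy hxf
        · exact h
  have hecard := (hsub e heH0).2
  obtain ⟨T2, hT2U, hT2i, hT2Q, hT2H⟩ : ∃ T, IsIT U0 π Q (H0.erase e) T := by
    by_contra hcon
    have h1 := hH0min (H0.erase e) (by
      rw [Finset.mem_filter, Finset.mem_powerset]
      exact ⟨(Finset.erase_subset _ _).trans hH01, hcon⟩)
    have h2 := Finset.card_erase_lt_of_mem heH0
    omega
  have heT2 : e ⊆ T2 := by
    by_contra hcon
    apply hno0
    refine ⟨T2, hT2U, hT2i, hT2Q, fun f hf hfT => ?_⟩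
    by_cases hfe : f = e
    · rw [hfe] at hfT
      exact hcon hfT
    · exact hT2H f (Finset.mem_erase.2 ⟨hfe, hf⟩) hfT
  have hei : Set.InjOn π (e : Set V) := hT2i.mono (by exact_mod_cast heT2)
  obtain ⟨J, hJ⟩ : ∃ J, J = e.image π := ⟨_, rfl⟩
  have hJcard : J.card = e.card := by
    rw [hJ]
    exact Finset.card_image_of_injOn hei
  have hp0J : p0 ∈ J := by
    rw [hJ, ← hxp]
    exact Finset.mem_image_of_mem π hxe
  have hJQ : J ⊆ Q := by
    rw [hJ, ← hT2Q]
    exact Finset.image_subset_image heT2
  obtain ⟨π', hπ'⟩ : ∃ π' : V → P, π' = fun z => if π z ∈ J then p0 else π z := ⟨_, rfl⟩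
  have hπ1 : ∀ z, π z ∈ J → π' z = p0 := fun z hz => by
    rw [hπ']
    exact if_pos hz
  have hπ2 : ∀ z, π z ∉ J → π' z = π z := fun z hz => by
    rw [hπ']
    exact if_neg hz
  obtain ⟨H', hH'⟩ : ∃ H', H' = (H0.image (fun f => f \ e)).erase ∅ := ⟨_, rfl⟩
  have hQ'card : (insert p0 (Q \ J)).card < q := by
    have h1 := Finset.card_insert_le p0 (Q \ J)
    have h2 := Finset.card_sdiff_of_subset hJQ
    have h3 := Finset.card_le_card hJQ
    omega
  have hp0' : p0 ∉ Q \ J := fun h => (Finset.mem_sdiff.1 h).2 hp0J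
  have hno' : ¬ ∃ T, IsIT (U0 \ e) π' (insert p0 (Q \ J)) H' T := by
    rintro ⟨T', h1, h2, h3, h4⟩
    have h5 : p0 ∈ T'.image π' := by
      rw [h3]
      exact Finset.mem_insert_self _ _
    obtain ⟨z, hzT, hzp⟩ := Finset.mem_image.1 h5
    have hzJ : π z ∈ J := by
      by_contra hcon
      rw [hπ2 z hcon] at hzp
      rw [hzp] at hcon
      exact hcon hp0J
    obtain ⟨y, hye, hyz⟩ : ∃ y ∈ e, π y = π z := by
      rw [hJ] at hzJ
      exact Finset.mem_image.1 hzJ
    have hyT' : y ∉ T' := fun h => (Finset.mem_sdiff.1 (h1 h)).2 hye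
    apply hno0
    refine ⟨T' ∪ e.erase y, ?_, ?_, ?_, ?_⟩
    · refine Finset.union_subset (h1.trans Finset.sdiff_subset) ?_
      exact (Finset.erase_subset _ _).trans (heT2.trans hT2U)
    · intro u hu v hv huv
      rw [Finset.mem_coe, Finset.mem_union] at hu hv
      have key : ∀ u ∈ T', ∀ v ∈ e.erase y, π u = π v → u = v := by
        intro u hu v hv huv
        have hv' := Finset.mem_erase.1 hv
        have huJ : π u ∈ J := by
          rw [huv, hJ]
          exact Finset.mem_image_of_mem π hv'.2
        have h6 : u = z := h2 hu hzT (by rw [hπ1 u huJ, hzp])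
        exfalso
        apply hv'.1
        apply hei hv'.2 hye
        rw [← huv, h6, hyz]
      rcases hu with hu | hu <;> rcases hv with hv | hv
      · apply h2 hu hv
        by_cases hJu : π u ∈ J
        · rw [hπ1 u hJu, hπ1 v (huv ▸ hJu)]
        · rw [hπ2 u hJu, hπ2 v (huv ▸ hJu), huv]
      · exact key u hu v hv huv
      · exact (key v hv u hu huv.symm).symm
      · exact hei (Finset.mem_of_mem_erase hu) (Finset.mem_of_mem_erase hv) huv
    · apply Finset.Subset.antisymm
      · intro p hp
        obtain ⟨u, hu, rfl⟩ := Finset.mem_image.1 hp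
        rw [Finset.mem_union] at hu
        rcases hu with hu | hu
        · by_cases hJu : π u ∈ J
          · exact hJQ hJu
          · have h6 : π' u ∈ T'.image π' := Finset.mem_image_of_mem π' hu
            rw [h3, hπ2 u hJu, Finset.mem_insert, Finset.mem_sdiff] at h6
            rcases h6 with h6 | h6
            · rw [h6]
              exact hp0
            · exact h6.1
        · apply hJQ
          rw [hJ]
          exact Finset.mem_image_of_mem π (Finset.mem_of_mem_erase hu)
      · intro p hp
        rw [Finset.mem_image]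
        by_cases hpJ : p ∈ J
        · rw [hJ, Finset.mem_image] at hpJ
          obtain ⟨v, hv, hvp⟩ := hpJ
          by_cases hvy : v = y
          · refine ⟨z, Finset.mem_union_left _ hzT, ?_⟩
            rw [← hyz, ← hvy, hvp]
          · exact ⟨v, Finset.mem_union_right _ (Finset.mem_erase.2 ⟨hvy, hv⟩), hvp⟩
        · have h6 : p ∈ T'.image π' := by
            rw [h3]
            exact Finset.mem_insert_of_mem (Finset.mem_sdiff.2 ⟨hp, hpJ⟩)
          obtain ⟨u, hu, hup⟩ := Finset.mem_image.1 h6
          refine ⟨u, Finset.mem_union_left _ hu, ?_⟩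
          by_cases hJu : π u ∈ J
          · rw [hπ1 u hJu] at hup
            rw [← hup] at hpJ
            exact absurd hp0J hpJ
          · rw [← hπ2 u hJu, hup]
    · intro f hf hfT
      have hyf : y ∉ f := by
        intro h
        have := hfT h
        rw [Finset.mem_union] at this
        rcases this with h6 | h6
        · exact hyT' h6
        · exact (Finset.mem_erase.1 h6).1 rfl
      by_cases hfe : f \ e = ∅
      · have h6 : f ⊆ e := Finset.sdiff_eq_empty_iff_subset.1 hfe
        have h7 : f ≠ e := by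
          intro h
          rw [h] at hyf
          exact hyf hye
        exact hT2H f (Finset.mem_erase.2 ⟨h7, hf⟩) (h6.trans heT2)
      · apply h4 (f \ e)
        · rw [hH']
          exact Finset.mem_erase.2 ⟨hfe, Finset.mem_image_of_mem _ hf⟩
        · intro u hu
          rw [Finset.mem_sdiff] at hu
          have := hfT hu.1
          rw [Finset.mem_union] at this
          rcases this with h6 | h6
          · exact h6
          · exact absurd (Finset.mem_of_mem_erase h6) hu.2
  have hyes' : ∃ T, IsIT (U0 \ e) π' ((insert p0 (Q \ J)).erase p0) H' T := by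
    have hout : ∀ u ∈ T2 \ e, π u ∉ J := by
      intro u hu hJu
      rw [Finset.mem_sdiff] at hu
      rw [hJ, Finset.mem_image] at hJu
      obtain ⟨v, hv, hvu⟩ := hJu
      have := hT2i (heT2 hv) hu.1 hvu
      rw [this] at hv
      exact hu.2 hv
    refine ⟨T2 \ e, ?_, ?_, ?_, ?_⟩
    · exact Finset.sdiff_subset_sdiff hT2U (Finset.Subset.refl _)
    · intro u hu v hv huv
      rw [Finset.mem_coe] at hu hv
      rw [hπ2 u (hout u hu), hπ2 v (hout v hv)] at huv
      exact hT2i (Finset.mem_sdiff.1 hu).1 (Finset.mem_sdiff.1 hv).1 huv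
    · rw [Finset.erase_insert hp0']
      ext p
      rw [Finset.mem_image, Finset.mem_sdiff]
      constructor
      · rintro ⟨u, hu, rfl⟩
        rw [hπ2 u (hout u hu)]
        refine ⟨?_, hout u hu⟩
        rw [← hT2Q]
        exact Finset.mem_image_of_mem π (Finset.mem_sdiff.1 hu).1
      · rintro ⟨hp, hpJ⟩
        rw [← hT2Q, Finset.mem_image] at hp
        obtain ⟨u, hu, rfl⟩ := hp
        refine ⟨u, ?_, hπ2 u hpJ⟩
        rw [Finset.mem_sdiff]
        refine ⟨hu, fun h => hpJ ?_⟩
        rw [hJ]
        exact Finset.mem_image_of_mem π h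
    · intro f' hf' hfT
      rw [hH', Finset.mem_erase, Finset.mem_image] at hf'
      obtain ⟨hne, f, hf, rfl⟩ := hf'
      have hfe : f ≠ e := by
        intro h
        rw [h, Finset.sdiff_self] at hne
        exact hne rfl
      apply hT2H f (Finset.mem_erase.2 ⟨hfe, hf⟩)
      intro u hu
      by_cases hue : u ∈ e
      · exact heT2 hue
      · exact (Finset.mem_sdiff.1 (hfT (Finset.mem_sdiff.2 ⟨hu, hue⟩))).1
  obtain ⟨S', hS'Q, hpS', Y', hY'U, hY'card, hY'⟩ := ih _ hQ'card (U0 \ e) π' (insert p0 (Q \ J)) H' p0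
    rfl (Finset.mem_insert_self _ _) hno' hyes'
  have hS'J : Disjoint (S'.erase p0) J := by
    rw [Finset.disjoint_left]
    intro p hp hpJ
    have h1 := hS'Q (Finset.mem_of_mem_erase hp)
    rw [Finset.mem_insert, Finset.mem_sdiff] at h1
    rcases h1 with h1 | h1
    · exact (Finset.mem_erase.1 hp).1 h1
    · exact h1.2 hpJ
  refine ⟨S'.erase p0 ∪ J, ?_, Finset.mem_union_right _ hp0J, Y' ∪ e, ?_, ?_, ?_⟩
  · refine Finset.union_subset ?_ hJQ
    intro p hp
    have h1 := hS'Q (Finset.mem_of_mem_erase hp)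
    rw [Finset.mem_insert, Finset.mem_sdiff] at h1
    rcases h1 with h1 | h1
    · exact absurd h1 (Finset.mem_erase.1 hp).1
    · exact h1.1
  · exact Finset.union_subset (hY'U.trans (Finset.sdiff_subset.trans hU0U))
      ((heT2.trans hT2U).trans hU0U)
  · have h1 := Finset.card_union_le Y' e
    have h2 : (S'.erase p0 ∪ J).card = (S'.erase p0).card + J.card := Finset.card_union_of_disjoint hS'J
    have h3 := Finset.card_erase_add_one hpS'
    omega
  · intro z hz hzS
    by_cases hze : z ∈ e
    · left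
      exact Finset.mem_union_right _ hze
    by_cases hzH : ({z} : Finset V) ∈ H
    · right
      exact ⟨{z}, hzH, Finset.mem_singleton_self _, by simp⟩
    have hzU : z ∈ U0 \ e := by
      rw [Finset.mem_sdiff, hU0, Finset.mem_filter]
      exact ⟨⟨hz, hzH⟩, hze⟩
    have hzS' : π' z ∈ S' := by
      by_cases hzJ : π z ∈ J
      · rw [hπ1 z hzJ]
        exact hpS'
      · rw [hπ2 z hzJ]
        rw [Finset.mem_union] at hzS
        rcases hzS with h | h
        · exact Finset.mem_of_mem_erase h
        · exact absurd h hzJ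
    rcases hY' z hzU hzS' with h | ⟨f', hf', hzf', hf'Y⟩
    · left
      exact Finset.mem_union_left _ h
    · right
      rw [hH', Finset.mem_erase, Finset.mem_image] at hf'
      obtain ⟨_, f, hf, rfl⟩ := hf'
      refine ⟨f, (hsub f hf).1, (Finset.mem_sdiff.1 hzf').1, ?_⟩
      intro u hu
      by_cases hue : u ∈ e
      · exact Finset.mem_insert_of_mem (Finset.mem_union_right _ hue)
      · have := hf'Y (Finset.mem_sdiff.2 ⟨hu, hue⟩)
        rw [Finset.mem_insert] at this ⊢
        rcases this with h | h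
        · exact Or.inl h
        · exact Or.inr (Finset.mem_union_left _ h)

end

end H5WL
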