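import Pool.Agent.H5.WL.Fin

set_option autoImplicit false

/-!
# The number of classes for large coefficients

For every `K` there is a weakly independent sequence with `π(K)` terms any two of which have a nontrivial
relation with coefficients at most `K`. And the bound for subsets of `{1, …, N}`.
-/

namespace H5WL

open Finset Pool.Agent.H5.WI

/-- the `i`-th prime -/
noncomputable def qq (i : ℕ) : ℕ := Nat.nth Nat.Prime i

theorem qq_prime (i : ℕ) : (qq i).Prime := Nat.prime_nth_prime i

theorem qq_inj {i j : ℕ} (h : qq i = qq j) : i = j :=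
  Nat.nth_injective Nat.infinite_setOf_prime h

/-- `P / q_i` for `i < n`, then `P 3 ^ i`, where `P` is the product of the first `n` primes -/
noncomputable def lo (n i : ℕ) : ℕ :=
  if i < n then ∏ j ∈ (range n).erase i, qq j else (∏ j ∈ range n, qq j) * 3 ^ i

theorem lo_pos (n i : ℕ) : 0 < lo n i := by
  unfold lo
  split_ifs
  · exact Finset.prod_pos fun j _ => (qq_prime j).pos
  · exact Nat.mul_pos (Finset.prod_pos fun j _ => (qq_prime j).pos) (by positivity)

theorem lo_mul {n i : ℕ} (h : i < n) : qq i * lo n i = ∏ j ∈ range n, qq j := by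
  unfold lo
  rw [if_pos h]
  exact Finset.mul_prod_erase (range n) qq (Finset.mem_range.2 h)

theorem lo_dvd {n i j : ℕ} (hi : i < n) (hij : j ≠ i) : qq i ∣ lo n j := by
  unfold lo
  split_ifs with h
  · exact Finset.dvd_prod_of_mem qq (Finset.mem_erase.2 ⟨hij.symm, Finset.mem_range.2 hi⟩)
  · exact Dvd.dvd.mul_right (Finset.dvd_prod_of_mem qq (Finset.mem_range.2 hi)) _

theorem lo_ind (n : ℕ) : Ind 1 (lo n) Set.univ := by
  intro s _ ε hε hsum
  have hsplit : ∀ i ∈ s, ε i * (lo n i : ℤ) = - ∑ j ∈ s.erase i, ε j * (lo n j : ℤ) := by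
    intro i hi
    rw [← Finset.add_sum_erase s _ hi] at hsum
    linarith
  have h1 : ∀ i ∈ s, i < n → ε i = 0 := by
    intro i hi hin
    have h2 : ((qq i : ℕ) : ℤ) ∣ ε i * (lo n i : ℤ) := by
      rw [hsplit i hi, dvd_neg]
      apply Finset.dvd_sum
      intro j hj
      exact Dvd.dvd.mul_left (Int.natCast_dvd_natCast.2 (lo_dvd hin (Finset.ne_of_mem_erase hj))) _
    have hp : Prime ((qq i : ℕ) : ℤ) := Nat.prime_iff_prime_int.1 (qq_prime i)
    rcases hp.dvd_or_dvd h2 with h3 | h3
    · by_contra hcon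
      have h4 := Int.le_of_dvd (abs_pos.2 hcon) ((dvd_abs _ _).2 h3)
      have h5 := hε i hi
      have h6 := (qq_prime i).two_le
      have h7 : ((1 : ℕ) : ℤ) = 1 := by norm_num
      rw [h7] at h5
      have h8 : (2 : ℤ) ≤ (qq i : ℤ) := by exact_mod_cast h6
      linarith
    · exfalso
      have h4 : qq i ∣ lo n i := Int.natCast_dvd_natCast.1 h3
      unfold lo at h4
      rw [if_pos hin, (qq_prime i).prime.dvd_finset_prod_iff] at h4
      obtain ⟨j, hj, hij⟩ := h4
      have h5 := (Nat.prime_dvd_prime_iff_eq (qq_prime i) (qq_prime j)).1 hij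
      exact Finset.ne_of_mem_erase hj (qq_inj h5).symm
  by_contra hcon
  push Not at hcon
  have hex : ∃ i, i ∈ s ∧ ε i ≠ 0 := hcon
  classical
  obtain ⟨hi, hi0⟩ := Nat.find_spec hex
  have hmin : ∀ j ∈ s, j < Nat.find hex → ε j = 0 := by
    intro j hj hjlt
    by_contra hj0
    exact Nat.find_min hex hjlt ⟨hj, hj0⟩
  revert hi hi0 hmin
  generalize Nat.find hex = i
  intro hi hi0 hmin
  have hin : ¬ i < n := fun h => hi0 (h1 i hi h)
  have h2 : (((∏ j ∈ range n, qq j) * 3 ^ (i + 1) : ℕ) : ℤ) ∣ ε i * (lo n i : ℤ) := by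
    rw [hsplit i hi, dvd_neg]
    apply Finset.dvd_sum
    intro j hj
    rcases Nat.lt_or_ge j i with hji | hji
    · rw [hmin j (Finset.mem_of_mem_erase hj) hji, zero_mul]
      exact dvd_zero _
    · have h3 : i + 1 ≤ j := by
        have := Finset.ne_of_mem_erase hj
        omega
      apply Dvd.dvd.mul_left
      apply Int.natCast_dvd_natCast.2
      unfold lo
      rw [if_neg (by omega)]
      exact Nat.mul_dvd_mul_left _ (pow_dvd_pow 3 h3)
  have h3 : (lo n i : ℤ) = ((∏ j ∈ range n, qq j : ℕ) : ℤ) * 3 ^ i := by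
    unfold lo
    rw [if_neg hin]
    push_cast
    rfl
  have hP : (((∏ j ∈ range n, qq j : ℕ) : ℤ) * 3 ^ i) ≠ 0 := by
    have : (0 : ℤ) < ((∏ j ∈ range n, qq j : ℕ) : ℤ) := by
      exact_mod_cast Finset.prod_pos fun j _ => (qq_prime j).pos
    positivity
  have h4 : (((∏ j ∈ range n, qq j) * 3 ^ (i + 1) : ℕ) : ℤ) =
      3 * (((∏ j ∈ range n, qq j : ℕ) : ℤ) * 3 ^ i) := by
    push_cast
    ring
  rw [h3, h4] at h2
  have h5 : (3 : ℤ) ∣ ε i := Int.dvd_of_mul_dvd_mul_right hP h2
  have h6 := hε i hi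
  have h7 := Int.le_of_dvd (abs_pos.2 hi0) ((dvd_abs _ _).2 h5)
  have h8 : ((1 : ℕ) : ℤ) = 1 := by norm_num
  rw [h8] at h6
  linarith

/-- every two of the first `π(K)` terms have a relation with coefficients at most `K` -/
theorem main_lower (K m : ℕ) (f : ℕ → Fin m)
    (hf : ∀ j, NoShort K 2 (lo (Nat.primeCounting K)) {i | f i = j}) : Nat.primeCounting K ≤ m := by
  classical
  by_contra hcon
  push Not at hcon
  obtain ⟨i, hi, j, hj, hij, hfij⟩ := Finset.exists_ne_map_eq_of_card_lt_of_maps_to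
    (s := range (Nat.primeCounting K)) (t := (Finset.univ : Finset (Fin m))) (f := f)
    (by rw [Finset.card_univ, Fintype.card_fin, Finset.card_range]; exact hcon)
    (fun i _ => Finset.mem_univ _)
  rw [Finset.mem_range] at hi hj
  have hqK : ∀ i, i < Nat.primeCounting K → qq i ≤ K := by
    intro i hi
    have : i < Nat.count Nat.Prime (K + 1) := hi
    have h1 := Nat.nth_lt_of_lt_count this
    unfold qq
    omega
  have h1 := hf (f i) {i, j} (by
    intro l hl
    rw [Finset.mem_insert, Finset.mem_singleton] at hl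
    rcases hl with rfl | rfl
    · rfl
    · exact hfij.symm) (by rw [Finset.card_pair hij]) (fun l => if l = i then (qq i : ℤ) else - (qq j : ℤ))
    (by
      intro l hl
      rw [Finset.mem_insert, Finset.mem_singleton] at hl
      rcases hl with rfl | rfl
      · rw [if_pos rfl, abs_of_nonneg (by positivity)]
        exact_mod_cast hqK _ hi
      · rw [if_neg hij.symm, abs_neg, abs_of_nonneg (by positivity)]
        exact_mod_cast hqK _ hj)
    (by
      rw [Finset.sum_pair hij, if_pos rfl, if_neg hij.symm]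
      have h2 := lo_mul hi
      have h3 := lo_mul hj
      have h4 : ((qq i : ℕ) : ℤ) * (lo (Nat.primeCounting K) i : ℤ) =
          ((qq j : ℕ) : ℤ) * (lo (Nat.primeCounting K) j : ℤ) := by
        rw [← Nat.cast_mul, ← Nat.cast_mul, h2, h3]
      linarith)
    i (Finset.mem_insert_self _ _)
  rw [if_pos rfl] at h1
  have h2 := (qq_prime i).pos
  have h3 : qq i = 0 := by exact_mod_cast h1
  omega

/-- a weakly independent subset of `{1, …, N}` has at most `2.257 log N + 1.437` elements -/
theorem card_le_log {N : ℕ} (hN : 1 ≤ N) (F : Finset ℕ) (hF : ∀ x ∈ F, x ≤ N)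
    (hw : Ind 1 (fun x => x) (F : Set ℕ)) : (F.card : ℝ) ≤ 2.257 * Real.log N + 1.437 := by
  classical
  have h1 := two_pow_le F {0} (fun x _ => (x : ℤ)) (by
    intro A' hA' B hB hAB
    have h4 : ∑ i ∈ A', (i : ℤ) = ∑ i ∈ B, (i : ℤ) := hAB 0 (Finset.mem_singleton_self _)
    let η : ℕ → ℤ := fun i => (if i ∈ A' then 1 else 0) - (if i ∈ B then 1 else 0)
    have h6 : ∑ i ∈ F, η i * (i : ℤ) = 0 := by
      have h7 : ∀ C ⊆ F, ∑ i ∈ F, (if i ∈ C then (1 : ℤ) else 0) * (i : ℤ) = ∑ i ∈ C, (i : ℤ) := by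
        intro C hC
        rw [← Finset.sum_subset hC]
        · apply Finset.sum_congr rfl
          intro i hi
          rw [if_pos hi, one_mul]
        · intro i _ hi
          rw [if_neg hi, zero_mul]
      have h8 : ∑ i ∈ F, η i * (i : ℤ) = ∑ i ∈ F, (if i ∈ A' then (1 : ℤ) else 0) * (i : ℤ) -
          ∑ i ∈ F, (if i ∈ B then (1 : ℤ) else 0) * (i : ℤ) := by
        rw [← Finset.sum_sub_distrib]
        apply Finset.sum_congr rfl
        intro i _
        exact sub_mul _ _ _
      rw [h8, h7 A' hA', h7 B hB, h4, sub_self]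
    have h7 := hw F (fun i hi => hi) η (fun i _ => by
      change |(if i ∈ A' then (1 : ℤ) else 0) - (if i ∈ B then (1 : ℤ) else 0)| ≤ ((1 : ℕ) : ℤ)
      split_ifs <;> simp) h6
    have h8 : ∀ i ∈ F, (i ∈ A' ↔ i ∈ B) := by
      intro i hi
      have h9 : (if i ∈ A' then (1 : ℤ) else 0) - (if i ∈ B then (1 : ℤ) else 0) = 0 := h7 i hi
      by_cases h10 : i ∈ A' <;> by_cases h11 : i ∈ B
      · exact ⟨fun _ => h11, fun _ => h10⟩
      · rw [if_pos h10, if_neg h11] at h9
        omega
      · rw [if_neg h10, if_pos h11] at h9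
        omega
      · exact ⟨fun h => absurd h h10, fun h => absurd h h11⟩
    ext i
    constructor
    · intro hi
      exact (h8 i (hA' hi)).1 hi
    · intro hi
      exact (h8 i (hB hi)).2 hi)
  have h2 := sum_log_le {0} (fun _ => ∑ i ∈ F, (i : ℤ).natAbs) F.card N hN h1 (by
    rw [Finset.sum_singleton]
    calc ∑ i ∈ F, (i : ℤ).natAbs ≤ ∑ i ∈ F, N := Finset.sum_le_sum fun i hi => by
          rw [Int.natAbs_natCast]
          exact hF i hi
      _ = N * F.card := by rw [Finset.sum_const, smul_eq_mul, mul_comm])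
  rw [Finset.card_singleton, Nat.cast_one, mul_one] at h2
  exact h2

/-- subsets of `{1, …, N}` -/
theorem main_N {N m : ℕ} (hN : 3 ≤ N) (hm : 5 * Real.log (Real.log N) + 19 ≤ m) (F : Finset ℕ)
    (hF : ∀ x ∈ F, x ≤ N) (hw : Ind 1 (fun x => x) (F : Set ℕ)) :
    ∃ f : ℕ → Fin m, ∀ j, Ind 2 (fun x => x) {x | x ∈ F ∧ f x = j} := by
  have hN' : (3 : ℝ) ≤ N := by exact_mod_cast hN
  have h1 := card_le_log (by omega) F hF hw
  have hlog3 : 1 ≤ Real.log N := by
    rw [Real.le_log_iff_exp_le (by linarith)]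
    have := Real.exp_one_lt_d9
    linarith
  have hL : (0 : ℝ) < Real.log N := by linarith
  have h4 : (F.card : ℝ) ≤ 4 * Real.log N := by linarith
  rcases Nat.eq_zero_or_pos F.card with h0 | h0
  · apply main_fin (n := 1) (by norm_num) _ F (by omega) hw
    have h5 : 0 ≤ Real.log (Real.log N) := Real.log_nonneg (by linarith)
    rw [Nat.cast_one, Real.log_one]
    linarith
  · apply main_fin (n := F.card) h0 _ F le_rfl hw
    have h5 : Real.log F.card ≤ Real.log 4 + Real.log (Real.log N) := by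
      rw [← Real.log_mul (by norm_num) hL.ne']
      exact Real.log_le_log (by exact_mod_cast h0) h4
    have h8 : Real.log 4 = 2 * Real.log 2 := by
      have : (4 : ℝ) = 2 ^ (2 : ℕ) := by norm_num
      rw [this, Real.log_pow]
      push_cast
      ring
    have h9 := Real.log_two_lt_d9
    linarith

end H5WL
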